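import Pool.Agent.H78.STN.Stmts

set_option autoImplicit false

namespace Pool.STN

theorem llw_log43 : Real.log (4 / 3) = 2 * Real.log 2 - Real.log 3 := by
  rw [Real.log_div (by norm_num) (by norm_num)]
  have : (4 : ℝ) = 2 ^ 2 := by norm_num
  rw [this, Real.log_pow]
  push_cast
  ring

theorem llw_log98 : Real.log (9 / 8) = 2 * Real.log 3 - 3 * Real.log 2 := by
  rw [Real.log_div (by norm_num) (by norm_num)]
  have h9 : (9 : ℝ) = 3 ^ 2 := by norm_num
  have h8 : (8 : ℝ) = 2 ^ 3 := by norm_num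
  rw [h9, h8, Real.log_pow, Real.log_pow]
  push_cast
  ring

/-- `log q` for `|q - 1| < e ≤ 1 / 2` -/
theorem llw_logq (q e : ℝ) (h1 : |q - 1| < e) (h2 : e ≤ 1 / 2) : |Real.log q| ≤ 2 * e := by
  rw [abs_lt] at h1
  obtain ⟨ha, hb⟩ := h1
  have hq : 1 / 2 < q := by linarith
  have hq0 : 0 < q := by linarith
  have he : 0 < e := by linarith
  rw [abs_le]
  constructor
  · have h3 := Real.one_sub_inv_le_log_of_pos hq0
    have h4 : q⁻¹ ≤ 1 + 2 * e := by
      rw [inv_le_iff_one_le_mul₀ hq0]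
      nlinarith
    linarith
  · have h3 := Real.log_le_sub_one_of_pos hq0
    linarith

theorem llw_num : 41 * Real.log 2 ≤ 100 * Real.log (4 / 3) := by
  have h : (2 : ℝ) ^ 41 ≤ (4 / 3 : ℝ) ^ 100 := by norm_num
  have h2 := Real.log_le_log (by positivity) h
  rw [Real.log_pow, Real.log_pow] at h2
  exact_mod_cast h2

theorem LLW_thm : LLWStmt := by
  intro a b ha hb h
  have heq : ((b : ℝ) - a) * Real.log (4 / 3) + b * Real.log (9 / 8) =
      ((a + b : ℕ) : ℝ) * Real.log 3 - ((2 * a + b : ℕ) : ℝ) * Real.log 2 := by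
    rw [llw_log43, llw_log98]
    push_cast
    ring
  have hlog : ((a + b : ℕ) : ℝ) * Real.log 3 - ((2 * a + b : ℕ) : ℝ) * Real.log 2 =
      Real.log ((3 : ℝ) ^ (a + b) / 2 ^ (2 * a + b)) := by
    rw [Real.log_div (by positivity) (by positivity), Real.log_pow, Real.log_pow]
  have hR : |(3 : ℝ) ^ (a + b) - 2 ^ (2 * a + b)| < 4 ^ a := by
    have := h
    exact_mod_cast this
  have hden : (0 : ℝ) < 2 ^ (2 * a + b) := by positivity
  have hpow : (2 : ℝ) ^ (2 * a + b) = 4 ^ a * 2 ^ b := by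
    rw [pow_add, pow_mul]
    norm_num
  have hq : |(3 : ℝ) ^ (a + b) / 2 ^ (2 * a + b) - 1| < 1 / 2 ^ b := by
    have e1 : (3 : ℝ) ^ (a + b) / 2 ^ (2 * a + b) - 1 =
        ((3 : ℝ) ^ (a + b) - 2 ^ (2 * a + b)) / 2 ^ (2 * a + b) := by
      field_simp
    rw [e1, abs_div, abs_of_pos hden, div_lt_div_iff₀ hden (by positivity), hpow]
    have hb2 : (0 : ℝ) < 2 ^ b := by positivity
    have h5 := mul_lt_mul_of_pos_right hR hb2
    rw [hpow] at h5
    linarith
  have hb' : (1 : ℝ) / 2 ^ b ≤ 1 / 2 := by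
    apply one_div_le_one_div_of_le (by norm_num)
    calc (2 : ℝ) = 2 ^ 1 := by norm_num
      _ ≤ 2 ^ b := pow_le_pow_right₀ (by norm_num) hb
  have hmain := llw_logq _ _ hq hb'
  have hA : |((b : ℝ) - a) * Real.log (4 / 3) + b * Real.log (9 / 8)| ≤ 2 / 2 ^ b := by
    rw [heq, hlog]
    calc |Real.log ((3 : ℝ) ^ (a + b) / 2 ^ (2 * a + b))| ≤ 2 * (1 / 2 ^ b) := hmain
      _ = 2 / 2 ^ b := by ring
  refine ⟨hA, heq, ?_⟩
  have h2 : (2 : ℝ) / 2 ^ b ≤ 1 := by
    have : (2 : ℝ) / 2 ^ b = 2 * (1 / 2 ^ b) := by ring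
    rw [this]
    linarith
  have hB : -1 ≤ ((b : ℝ) - a) * Real.log (4 / 3) + b * Real.log (9 / 8) := by
    have := (abs_le.mp hA).1
    linarith
  have hnum := llw_num
  have hl2 := Real.log_two_gt_d9
  have hid : ((a : ℝ) + b) * Real.log (4 / 3) =
      b * Real.log 2 - (((b : ℝ) - a) * Real.log (4 / 3) + b * Real.log (9 / 8)) := by
    rw [llw_log43, llw_log98]
    ring
  have h6 : ((a : ℝ) + b) * (41 * Real.log 2) ≤ ((a : ℝ) + b) * (100 * Real.log (4 / 3)) :=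
    mul_le_mul_of_nonneg_left hnum (by positivity)
  have h7 : (41 * ((a : ℝ) + b)) * Real.log 2 ≤ (100 * b + 200) * Real.log 2 := by
    nlinarith
  have h8 : 41 * ((a : ℝ) + b) ≤ 100 * b + 200 :=
    le_of_mul_le_mul_right h7 (by linarith)
  exact_mod_cast h8

end Pool.STN
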